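import Mathlib
import Pool.Agent.Helper707.Num
import Pool.Agent.U113.EQ.Rep
import Pool.Agent.U113.EQ.Std

/-!
# The equality problem is undecidable in `M(n)`, `n ≥ 3`, and in `S(n)`, `n ≥ 6`

Let `Y` be a generalised Collatz map with undecidable halting problem, `N ↦ a_r ⌊N / m⌋ + e_r` for
`r = N mod m`. It is simulated by the words `x a^N q b^k t` and the relations `a^m q = q b`,
`x a^r q = x q_r` (`x a^r q = 0` for the halting residues `r`), `q_r b = a^(a_r) q_r`,
`q_r t = a^(e_r) q t`. The word of a halting number vanishes in every algebra with these relations.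
For the converse one represents the letters by multiples of matrix units: `x ∈ E_01`, `a ∈ E_11`,
`q, q_r ∈ E_12`, `b ∈ E_22`, `t ∈ E_20` over a polynomial ring, so that the word of a configuration
is the only word which begins and ends at the vertex `0` and has its content. The linear functional
which is `1` on the words of the configurations that do not halt and `0` on the other words defines
an ideal, and the quotient by it is an algebra in `M(3)` with the above relations, in which the
word of a number that does not halt is not zero. For the standard identities one takes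
`t ∈ E_23`: the matrices are upper triangular with equal first and last diagonal entries, and such
`4 × 4` matrices satisfy `s_n = 0` for `n ≥ 6`.
-/

set_option autoImplicit false
set_option linter.dupNamespace false

namespace Pool.Agent.Results.MP_79b5eb_lc.Undecidable

open Pool.Agent.Helper707.Rel

universe u

section defs

/-- The product `v_i v_{w_1} ⋯ v_{w_r}` of elements of an algebra; `i` is the first letter and the
list `w` consists of the other letters of a nonempty word. -/
def word {A : Type*} [NonUnitalRing A] (v : ℕ → A) (i : ℕ) (w : List ℕ) : A :=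
  w.foldl (fun y j => y * v j) (v i)

/-- A noncommutative polynomial over `F` in the variables `x_0, x_1, …` without constant term is
given as a finite list of terms: a coefficient in `F`, and a nonempty word. This is its value at the
elements `v 0, v 1, …` of an algebra. -/
def value (F : Type*) [Field F] {A : Type*} [NonUnitalRing A] [Module F A]
    (g : List (F × ℕ × List ℕ)) (v : ℕ → A) : A :=
  (g.map fun t => t.1 • word v t.2.1 t.2.2).sum

/-- A noncommutative polynomial with rational coefficients and without constant term, as a finite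
object; the pair `(p, q)` of an integer and a natural number is the coefficient `p / (q + 1)`. -/
abbrev QPoly : Type := List ((ℤ × ℕ) × ℕ × List ℕ)

/-- The polynomial over `F` given by a polynomial with rational coefficients. -/
def toF (F : Type*) [Field F] (g : QPoly) : List (F × ℕ × List ℕ) :=
  g.map fun t => ((t.1.1 : F) / ((t.1.2 : F) + 1), t.2)

/-- A quasi-identity `u_1 = 0 ∧ ⋯ ∧ u_k = 0 → u = 0`: the list of the `u_i`, and `u`. -/
abbrev QuasiIdentity : Type := List QPoly × QPoly

/-- The quasi-identity holds in the algebra `A`. -/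
def Holds (F : Type*) [Field F] (A : Type*) [NonUnitalRing A] [Module F A]
    (σ : QuasiIdentity) : Prop :=
  ∀ v : ℕ → A, (∀ p ∈ σ.1, value F (toF F p) v = 0) → value F (toF F σ.2) v = 0

/-- The polynomial `g` over `F` is an identity of `A`. -/
def IsIdentity (F : Type*) [Field F] (A : Type*) [NonUnitalRing A] [Module F A]
    (g : List (F × ℕ × List ℕ)) : Prop :=
  ∀ v : ℕ → A, value F g v = 0

/-- The algebra `A` belongs to the variety `M(n)`: it satisfies every polynomial identity of
`M_n(F)`. -/
def InM (F : Type*) [Field F] (n : ℕ) (A : Type*) [NonUnitalRing A] [Module F A] : Prop :=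
  ∀ g : List (F × ℕ × List ℕ), IsIdentity F (Matrix (Fin n) (Fin n) F) g → IsIdentity F A g

/-- The product of a nonempty list. -/
def nprod {A : Type*} [NonUnitalRing A] : List A → A
  | [] => 0
  | a :: l => l.foldl (· * ·) a

/-- The algebra `A` belongs to the variety `S(n)`: it satisfies the standard identity
`∑_σ sgn(σ) a_{σ(1)} ⋯ a_{σ(n)} = 0`. -/
def InS (n : ℕ) (A : Type*) [NonUnitalRing A] : Prop :=
  ∀ a : Fin n → A, ∑ σ : Equiv.Perm (Fin n),
    Equiv.Perm.sign σ • nprod (List.ofFn fun i => a (σ i)) = 0

/-- The quasi-identity holds in every algebra over `F` (not necessarily unital) in `M(n)`. -/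
def ValidM (F : Type u) [Field F] (n : ℕ) (σ : QuasiIdentity) : Prop :=
  ∀ (A : Type u) [NonUnitalRing A] [Module F A] [IsScalarTower F A A] [SMulCommClass F A A],
    InM F n A → Holds F A σ

/-- The quasi-identity holds in every algebra over `F` (not necessarily unital) in `S(n)`. -/
def ValidS (F : Type u) [Field F] (n : ℕ) (σ : QuasiIdentity) : Prop :=
  ∀ (A : Type u) [NonUnitalRing A] [Module F A] [IsScalarTower F A A] [SMulCommClass F A A],
    InS n A → Holds F A σ

/-- The quasi-identity holds in every unital algebra over `F` in `M(n)`. -/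
def ValidM1 (F : Type u) [Field F] (n : ℕ) (σ : QuasiIdentity) : Prop :=
  ∀ (A : Type u) [Ring A] [Algebra F A], InM F n A → Holds F A σ

/-- The quasi-identity holds in every unital algebra over `F` in `S(n)`. -/
def ValidS1 (F : Type u) [Field F] (n : ℕ) (σ : QuasiIdentity) : Prop :=
  ∀ (A : Type u) [Ring A] [Algebra F A], InS n A → Holds F A σ

end defs

section homs

variable {F : Type*} [Field F]

theorem word_map {A B : Type*} [NonUnitalRing A] [NonUnitalRing B] (f : A →ₙ+* B) (v : ℕ → A)
    (i : ℕ) (w : List ℕ) : f (word v i w) = word (fun j => f (v j)) i w := by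
  unfold word
  have key : ∀ y : A, f (w.foldl (fun y j => y * v j) y) =
      w.foldl (fun y j => y * f (v j)) (f y) := by
    induction w with
    | nil => exact fun _ => rfl
    | cons c w ih =>
      intro y
      rw [List.foldl_cons, List.foldl_cons, ih, map_mul]
  exact key (v i)

theorem value_map {A B : Type*} [NonUnitalRing A] [Module F A] [NonUnitalRing B] [Module F B]
    (f : A →ₙ+* B) (hf : ∀ (c : F) a, f (c • a) = c • f a) (g : List (F × ℕ × List ℕ))
    (v : ℕ → A) : f (value F g v) = value F g (fun j => f (v j)) := by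
  unfold value
  rw [map_list_sum, List.map_map]
  congr 1
  refine List.map_congr_left fun t _ => ?_
  simp only [Function.comp_apply, hf, word_map]

theorem value_algHom {A B : Type*} [Ring A] [Algebra F A] [Ring B] [Algebra F B]
    (f : A →ₐ[F] B) (g : List (F × ℕ × List ℕ)) (v : ℕ → A) :
    f (value F g v) = value F g (fun j => f (v j)) :=
  value_map (F := F) (A := A) (B := B)
    { toFun := f
      map_mul' := map_mul f
      map_zero' := map_zero f
      map_add' := map_add f } (fun c a => map_smul f c a) g v

theorem word_ring {A : Type*} [Ring A] (v : ℕ → A) (i : ℕ) (w : List ℕ) :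
    word v i w = ((i :: w).map v).prod := by
  unfold word
  rw [List.map_cons, List.prod_cons]
  generalize v i = y
  induction w generalizing y with
  | nil => simp
  | cons c w ih => rw [List.foldl_cons, ih, List.map_cons, List.prod_cons, mul_assoc]

theorem nprod_ring {A : Type*} [Ring A] {l : List A} (h : l ≠ []) : nprod l = l.prod := by
  cases l with
  | nil => exact absurd rfl h
  | cons a l =>
    have key : ∀ a : A, l.foldl (· * ·) a = a * l.prod := by
      clear h
      induction l with
      | nil => simp
      | cons c w ih =>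
        intro a
        rw [List.foldl_cons, ih, List.prod_cons, mul_assoc]
    rw [List.prod_cons, ← key a]
    rfl

/-- corner embedding of matrices -/
noncomputable def emb {n : ℕ} (h : 3 ≤ n) : Matrix (Fin 3) (Fin 3) F →ₙ+* Matrix (Fin n) (Fin n) F where
  toFun M := (Matrix.of fun (i : Fin n) (j : Fin 3) => if i = Fin.castLE h j then (1 : F) else 0) * M *
    (Matrix.of fun (i : Fin 3) (j : Fin n) => if j = Fin.castLE h i then (1 : F) else 0)
  map_zero' := by simp
  map_add' M N := by rw [Matrix.mul_add, Matrix.add_mul]
  map_mul' M N := by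
    have key : (Matrix.of fun (i : Fin 3) (j : Fin n) => if j = Fin.castLE h i then (1 : F) else 0) *
        (Matrix.of fun (i : Fin n) (j : Fin 3) => if i = Fin.castLE h j then (1 : F) else 0) = 1 := by
      ext i j
      rw [Matrix.mul_apply, Finset.sum_eq_single (Fin.castLE h i)]
      · simp only [Matrix.of_apply, if_true, one_mul, Matrix.one_apply]
        by_cases hij : i = j
        · rw [if_pos (by rw [hij]), if_pos hij]
        · rw [if_neg (fun h' => hij (Fin.castLE_injective h h')), if_neg hij]
      · intro b _ hb
        rw [Matrix.of_apply, if_neg hb, zero_mul]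
      · intro h'
        exact absurd (Finset.mem_univ _) h'
    have e : ∀ (P : Matrix (Fin n) (Fin 3) F) (Q : Matrix (Fin 3) (Fin n) F), Q * P = 1 →
        P * (M * N) * Q = P * M * Q * (P * N * Q) := by
      intro P Q hPQ
      calc P * (M * N) * Q = P * M * (1 : Matrix (Fin 3) (Fin 3) F) * N * Q := by
            rw [Matrix.mul_one]; simp only [Matrix.mul_assoc]
        _ = P * M * (Q * P) * N * Q := by rw [hPQ]
        _ = P * M * Q * (P * N * Q) := by simp only [Matrix.mul_assoc]
    exact e _ _ key

theorem emb_inj {n : ℕ} (h : 3 ≤ n) (M : Matrix (Fin 3) (Fin 3) F) (hM : emb h M = 0) : M = 0 := by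
  ext i j
  have h1 : (emb h M) (Fin.castLE h i) (Fin.castLE h j) = M i j := by
    change (((Matrix.of fun (i : Fin n) (j : Fin 3) => if i = Fin.castLE h j then (1 : F) else 0) * M *
      (Matrix.of fun (i : Fin 3) (j : Fin n) => if j = Fin.castLE h i then (1 : F) else 0) :
      Matrix (Fin n) (Fin n) F)) _ _ = _
    rw [Matrix.mul_apply, Finset.sum_eq_single j]
    · rw [Matrix.mul_apply, Finset.sum_eq_single i]
      · simp
      · intro b _ hb
        rw [Matrix.of_apply, if_neg (fun h' => hb (Fin.castLE_injective h h').symm), zero_mul]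
      · intro h'
        exact absurd (Finset.mem_univ _) h'
    · intro b _ hb
      rw [Matrix.of_apply, if_neg (fun h' => hb (Fin.castLE_injective h h').symm), mul_zero]
    · intro h'
      exact absurd (Finset.mem_univ _) h'
  rw [← h1, hM]
  rfl

theorem emb_smul {n : ℕ} (h : 3 ≤ n) (c : F) (M : Matrix (Fin 3) (Fin 3) F) :
    emb h (c • M) = c • emb h M := by
  have e : ∀ (P : Matrix (Fin n) (Fin 3) F) (Q : Matrix (Fin 3) (Fin n) F),
      P * (c • M) * Q = c • (P * M * Q) := by
    intro P Q
    rw [Matrix.mul_smul, Matrix.smul_mul]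
  exact e _ _

/-- an identity of `M_n(F)`, `n ≥ 3`, is an identity of the `3 × 3` matrices over a polynomial
ring -/
theorem identity_poly [CharZero F] {n : ℕ} (hn : 3 ≤ n) {g : List (F × ℕ × List ℕ)}
    (hg : IsIdentity F (Matrix (Fin n) (Fin n) F) g) :
    IsIdentity F (Matrix (Fin 3) (Fin 3) (MvPolynomial ℕ F)) g := by
  intro Z
  refine Matrix.ext fun i j => ?_
  rw [Matrix.zero_apply]
  apply MvPolynomial.funext (R := F)
  intro θ
  rw [map_zero]
  let h : Matrix (Fin 3) (Fin 3) (MvPolynomial ℕ F) →ₐ[F] Matrix (Fin 3) (Fin 3) F :=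
    (MvPolynomial.aeval θ : MvPolynomial ℕ F →ₐ[F] F).mapMatrix
  have h1 : value F g (fun k => h (Z k)) = 0 := by
    apply emb_inj hn
    exact (value_map (emb hn) (fun c M => emb_smul hn c M) g _).trans (hg _)
  have h2 := value_algHom h g Z
  have h3 := congrFun (congrFun (h2.trans h1) i) j
  have h4 : h (value F g Z) i j = MvPolynomial.aeval θ (value F g Z i j) := rfl
  rw [h4] at h3
  have h5 : MvPolynomial.aeval θ (value F g Z i j) = MvPolynomial.eval θ (value F g Z i j) := by
    rw [MvPolynomial.aeval_def, MvPolynomial.eval, MvPolynomial.coe_eval₂Hom]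
    rfl
  rw [← h5]
  exact h3

end homs

section models

variable (F : Type u) [Field F] (Y : Sys)

/-- the quiver with three vertices -/
def Q3 : Pool.Agent.U113.EQ.Quiv (Fin 3) where
  v0 := 0
  v1 := 1
  v2 := 2
  vz := 0
  h01 := by decide
  h02 := by decide
  h12 := by decide
  hz1 := by decide
  hz2 := by decide

/-- the quiver with four vertices -/
def Q4 : Pool.Agent.U113.EQ.Quiv (Fin 4) where
  v0 := 0
  v1 := 1
  v2 := 2
  vz := 3
  h01 := by decide
  h02 := by decide
  h12 := by decide
  hz1 := by decide
  hz2 := by decide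

open Pool.Agent.U113.EQ

theorem inM [CharZero F] {n : ℕ} (hn : 3 ≤ n) : InM F n (Alg F Q3 Y) := by
  intro g hg v
  choose v' hv' using fun i => pr_surj F Q3 Y (v i)
  have h1 := value_algHom (pr F Q3 Y) g v'
  have h2 : (fun j => pr F Q3 Y (v' j)) = v := funext hv'
  rw [h2] at h1
  rw [← h1, pr_eq_zero, mem_K]
  intro p s
  have h3 : rho F Q3 (p * value F g v' * s) = 0 := by
    rw [map_mul, map_mul]
    have h4 := value_algHom (rho F Q3) g v'
    have h5 : rho F Q3 (value F g v') = 0 := h4.trans (identity_poly hn hg _)
    rw [h5, mul_zero, zero_mul]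
  change lin F Y (rho F Q3 (p * value F g v' * s) _ _) = 0
  rw [h3, Matrix.zero_apply, map_zero]

theorem tri_rho (f : FreeAlgebra F ℕ) : Tri (rho F Q4 f) := by
  induction f with
  | grade0 r =>
    rw [AlgHom.commutes, Algebra.algebraMap_eq_smul_one]
    exact Tri.one.smul r
  | grade1 c =>
    have h1 : rho F Q4 (FreeAlgebra.ι F c) = mat F Q4 c := by simp [rho]
    rw [h1]
    unfold mat Quiv.src Quiv.tgt Q4
    constructor
    · intro i j hij
      rw [Matrix.single_apply, if_neg]
      rintro ⟨h2, h3⟩
      revert h2 h3 hij
      split_ifs <;> rintro hij rfl rfl <;> revert hij <;> first | decide | omega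
    · rw [Matrix.single_apply, Matrix.single_apply, if_neg, if_neg]
      · rintro ⟨h2, h3⟩
        revert h2 h3
        split_ifs <;> decide
      · rintro ⟨h2, h3⟩
        revert h2 h3
        split_ifs <;> decide
  | mul a b ha hb => rw [map_mul]; exact ha.mul hb
  | add a b ha hb => rw [map_add]; exact ha.add hb

theorem inS {n : ℕ} (hn : 6 ≤ n) : InS n (Alg F Q4 Y) := by
  intro a
  choose a' ha' using fun i => pr_surj F Q4 Y (a i)
  have hne : ∀ σ : Equiv.Perm (Fin n), (List.ofFn fun i => a (σ i)) ≠ [] := by
    intro σ h
    have := congrArg List.length h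
    rw [List.length_ofFn] at this
    simp at this
    omega
  have h1 : ∀ σ : Equiv.Perm (Fin n), nprod (List.ofFn fun i => a (σ i)) =
      pr F Q4 Y (List.ofFn fun i => a' (σ i)).prod := by
    intro σ
    rw [nprod_ring (hne σ), map_list_prod, List.map_ofFn]
    congr 2
    funext i
    exact (ha' (σ i)).symm
  simp only [h1]
  have h2 : (∑ σ : Equiv.Perm (Fin n), Equiv.Perm.sign σ •
      pr F Q4 Y (List.ofFn fun i => a' (σ i)).prod) = pr F Q4 Y (std a') := by
    unfold std
    rw [map_sum]
    refine Finset.sum_congr rfl fun σ _ => ?_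
    rcases Int.units_eq_one_or (Equiv.Perm.sign σ) with h5 | h5 <;> rw [h5] <;> simp
  rw [h2, pr_eq_zero, mem_K]
  intro p s
  have h3 : rho F Q4 (std a') = 0 := by
    have h4 : rho F Q4 (std a') = std (fun i => rho F Q4 (a' i)) := by
      unfold std
      rw [map_sum]
      refine Finset.sum_congr rfl fun σ _ => ?_
      have h6 : rho F Q4 (List.ofFn fun i => a' (σ i)).prod =
          (List.ofFn fun i => rho F Q4 (a' (σ i))).prod := by
        rw [map_list_prod, List.map_ofFn]
        rfl
      rcases Int.units_eq_one_or (Equiv.Perm.sign σ) with h5 | h5 <;> rw [h5] <;> simp [h6]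
    rw [h4]
    exact std_zero hn fun i => tri_rho F _
  change lin F Y (rho F Q4 (p * std a' * s) _ _) = 0
  rw [map_mul, map_mul, h3, mul_zero, zero_mul, Matrix.zero_apply, map_zero]

end models

section relations

/-- a term with coefficient `c` and word `l` -/
def term (c : ℤ) (l : List ℕ) : (ℤ × ℕ) × ℕ × List ℕ := ((c, 0), l.headD 0, l.tail)

/-- `l - r` -/
def diff (l r : List ℕ) : QPoly := [term 1 l, term (-1) r]

/-- the relations -/
def relations (Y : Sys) : List QPoly :=
  diff (List.replicate Y.m 1 ++ [4]) [4, 2] ::
    ((List.range Y.m).map fun r =>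
        if Y.H r then [term 1 (0 :: (List.replicate r 1 ++ [4]))]
        else diff (0 :: (List.replicate r 1 ++ [4])) [0, 5 + r]) ++
    (List.range Y.m).map (fun r => diff [5 + r, 2] (List.replicate (Y.a r) 1 ++ [5 + r])) ++
    (List.range Y.m).map fun r => diff [5 + r, 3] (List.replicate (Y.e r) 1 ++ [4, 3])

/-- the word of a number -/
def wordOf (N : ℕ) : QPoly := [term 1 (0 :: (List.replicate N 1 ++ [4, 3]))]

variable {F : Type*} [Field F] {A : Type*} [Ring A] [Algebra F A]

theorem word_list {l : List ℕ} (h : l ≠ []) (v : ℕ → A) :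
    word v (l.headD 0) l.tail = (l.map v).prod := by
  cases l with
  | nil => exact absurd rfl h
  | cons a l => exact word_ring v a l

theorem value_term (c : ℤ) {l : List ℕ} (h : l ≠ []) (v : ℕ → A) :
    value F (toF F [term c l]) v = (c : F) • (l.map v).prod := by
  have h1 := word_list h v
  simp only [value, toF, term, List.map_cons, List.map_nil, List.sum_cons, List.sum_nil, h1]
  simp

theorem value_diff {l r : List ℕ} (hl : l ≠ []) (hr : r ≠ []) (v : ℕ → A) :
    value F (toF F (diff l r)) v = (l.map v).prod - (r.map v).prod := by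
  have h1 := word_list hl v
  have h2 := word_list hr v
  simp only [value, toF, diff, term, List.map_cons, List.map_nil, List.sum_cons, List.sum_nil, h1,
    h2]
  simp [sub_eq_add_neg]

theorem value_wordOf (N : ℕ) (v : ℕ → A) :
    value F (toF F (wordOf N)) v = v 0 * v 1 ^ N * v 4 * v 3 := by
  unfold wordOf
  rw [value_term 1 (by simp)]
  simp [mul_assoc]

open Pool.Agent.U113.EQ in
theorem relations_iff (Y : Sys) (v : ℕ → A) :
    (∀ p ∈ relations Y, value F (toF F p) v = 0) ↔ Rels Y v := by
  unfold relations
  simp only [List.mem_append, List.mem_cons, List.mem_map, List.mem_range, or_imp, forall_and,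
    forall_eq, forall_exists_index, and_imp, forall_apply_eq_imp_iff₂]
  have e1 : value F (toF F (diff (List.replicate Y.m 1 ++ [4]) [4, 2])) v =
      v 1 ^ Y.m * v 4 - v 4 * v 2 := by
    rw [value_diff (by simp) (by simp)]
    simp
  have e2 : ∀ r, value F (toF F (diff (0 :: (List.replicate r 1 ++ [4])) [0, 5 + r])) v =
      v 0 * v 1 ^ r * v 4 - v 0 * v (5 + r) := by
    intro r
    rw [value_diff (by simp) (by simp)]
    simp [mul_assoc]
  have e2' : ∀ r, value F (toF F [term 1 (0 :: (List.replicate r 1 ++ [4]))]) v =
      v 0 * v 1 ^ r * v 4 := by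
    intro r
    rw [value_term 1 (by simp)]
    simp [mul_assoc]
  have e3 : ∀ r, value F (toF F (diff [5 + r, 2] (List.replicate (Y.a r) 1 ++ [5 + r]))) v =
      v (5 + r) * v 2 - v 1 ^ Y.a r * v (5 + r) := by
    intro r
    rw [value_diff (by simp) (by simp)]
    simp
  have e4 : ∀ r, value F (toF F (diff [5 + r, 3] (List.replicate (Y.e r) 1 ++ [4, 3]))) v =
      v (5 + r) * v 3 - v 1 ^ Y.e r * v 4 * v 3 := by
    intro r
    rw [value_diff (by simp) (by simp)]
    simp [mul_assoc]
  constructor
  · rintro ⟨⟨⟨h1, h2⟩, h3⟩, h4⟩
    rw [e1, sub_eq_zero] at h1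
    refine ⟨h1, fun r hr hH => ?_, fun r hr hH => ?_, fun r hr => ?_, fun r hr => ?_⟩
    · have := h2 r hr
      rw [if_neg (by rw [hH]; simp), e2, sub_eq_zero] at this
      exact this
    · have := h2 r hr
      rw [if_pos hH, e2'] at this
      exact this
    · have := h3 r hr
      rw [e3, sub_eq_zero] at this
      exact this
    · have := h4 r hr
      rw [e4, sub_eq_zero] at this
      exact this
  · intro h
    refine ⟨⟨⟨?_, fun r hr => ?_⟩, fun r hr => ?_⟩, fun r hr => ?_⟩
    · rw [e1, sub_eq_zero]
      exact h.r1
    · cases hH : Y.H r with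
      | false =>
        rw [if_neg (by simp), e2, sub_eq_zero]
        exact h.r2 r hr hH
      | true =>
        rw [if_pos rfl, e2']
        exact h.r2' r hr hH
    · rw [e3, sub_eq_zero]
      exact h.r3 r hr
    · rw [e4, sub_eq_zero]
      exact h.r4 r hr

open Pool.Agent.U113.EQ in
/-- the word of a halting number vanishes in every algebra with the relations -/
theorem holds_of_halts {F : Type*} [Field F] {A : Type*} [NonUnitalRing A] [Module F A]
    [IsScalarTower F A A] [SMulCommClass F A A] {Y : Sys} (hm : 0 < Y.m) {N : ℕ}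
    (h : Y.Halts N) : Holds F A (relations Y, wordOf N) := by
  intro v hv
  have hinj : Function.Injective (Unitization.inrNonUnitalAlgHom F A) := Unitization.inr_injective
  let f : A →ₙ+* Unitization F A := (Unitization.inrNonUnitalAlgHom F A : A →ₙ+* Unitization F A)
  have hf : ∀ (c : F) (a : A), f (c • a) = c • f a := fun c a =>
    map_smul (Unitization.inrNonUnitalAlgHom F A) c a
  have h1 : Rels Y (fun j => f (v j)) := by
    rw [← relations_iff (F := F)]
    intro p hp
    rw [← value_map f hf, hv p hp, map_zero]
  have h2 := h1.halts hm h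
  rw [← value_wordOf (F := F) N (fun j => f (v j)), ← value_map f hf] at h2
  apply hinj
  rw [map_zero]
  exact h2

end relations

section computability

theorem primrec_wordOf : Primrec wordOf := by
  have h1 : Primrec fun N : ℕ => (List.range N).map fun _ => (1 : ℕ) :=
    Primrec.list_map Primrec.list_range (Primrec.const 1).to₂
  have h2 : Primrec fun N : ℕ => ((List.range N).map fun _ => (1 : ℕ)) ++ [4, 3] :=
    Primrec.list_append.comp h1 (Primrec.const _)
  have h3 : Primrec fun N : ℕ => ((((1 : ℤ), (0 : ℕ)), (0 : ℕ),
      ((List.range N).map fun _ => (1 : ℕ)) ++ [4, 3]) : (ℤ × ℕ) × ℕ × List ℕ) :=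
    Primrec.pair (Primrec.const _) (Primrec.pair (Primrec.const _) h2)
  have h4 : Primrec fun N : ℕ => ([((((1 : ℤ), (0 : ℕ)), (0 : ℕ),
      ((List.range N).map fun _ => (1 : ℕ)) ++ [4, 3]) : (ℤ × ℕ) × ℕ × List ℕ)] : QPoly) :=
    Primrec.list_cons.comp h3 (Primrec.const [])
  refine h4.of_eq fun N => ?_
  have : (List.range N).map (fun _ => (1 : ℕ)) = List.replicate N 1 := by
    rw [List.map_const']
    simp
  rw [this]
  rfl

theorem primrec_pow (S p : ℕ) : Primrec fun k : ℕ => S * p ^ k := by
  have h1 : Primrec fun k : ℕ => p ^ k := by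
    have h2 : Primrec (Nat.rec (motive := fun _ => ℕ) 1 (fun _ ih => ih * p)) :=
      Primrec.nat_rec₁ 1 (Primrec.nat_mul.comp Primrec.snd (Primrec.const p))
    refine h2.of_eq fun k => ?_
    induction k with
    | zero => rfl
    | succ k ih => rw [pow_succ, ← ih]
  exact Primrec.nat_mul.comp (Primrec.const S) h1

end computability

/-- The equality problem is undecidable, even for one fixed finite list of premises. -/
def EqualityUndecidable (P : QuasiIdentity → Prop) : Prop :=
  ¬ ComputablePred P ∧ ∃ R : List QPoly, ¬ ComputablePred fun g : QPoly => P (R, g)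

theorem undecidable_of {P : QuasiIdentity → Prop}
    (h : ∀ Y : Sys, 0 < Y.m → ∀ N, P (relations Y, wordOf N) ↔ Y.Halts N) : EqualityUndecidable P := by
  obtain ⟨Y, S, p, hm, hund⟩ := Pool.Agent.Helper707.Num.exists_undecidable_sys
  have key : ¬ ComputablePred fun g : QPoly => P (relations Y, g) := by
    intro hc
    apply hund
    refine ComputablePred.computable_of_manyOneReducible ⟨fun k => wordOf (S * p ^ k),
      (primrec_wordOf.comp (primrec_pow S p)).to_comp, fun k => ?_⟩ hc
    exact (h Y hm _).symm
  refine ⟨fun hc => key ?_, relations Y, key⟩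
  refine ComputablePred.computable_of_manyOneReducible ⟨fun g => (relations Y, g),
    (Primrec.pair (Primrec.const _) Primrec.id).to_comp, fun g => Iff.rfl⟩ hc

open Pool.Agent.U113.EQ in
/-- **Main theorem.** Let `F` be a field of characteristic zero. The equality problem is
undecidable in the variety `M(n)` for every `n ≥ 3` and in the variety `S(n)` for every `n ≥ 6`,
for the class of all algebras in the variety and also for the class of the unital ones; moreover
in each case there is a fixed finite list of premises (that is, a finitely presented algebra of the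
variety) for which the problem is undecidable. -/
theorem result (F : Type u) [Field F] [CharZero F] :
    (∀ n, 3 ≤ n → EqualityUndecidable (ValidM F n) ∧ EqualityUndecidable (ValidM1 F n)) ∧
    (∀ n, 6 ≤ n → EqualityUndecidable (ValidS F n) ∧ EqualityUndecidable (ValidS1 F n)) := by
  have hno : ∀ {V : Type} [Fintype V] [DecidableEq V] (Q : Quiv V) (Y : Sys) (N : ℕ),
      Holds F (Alg F Q Y) (relations Y, wordOf N) → Y.Halts N := by
    intro V _ _ Q Y N h
    by_contra hN
    apply word_ne_zero F Q Y hN
    have := h (g F Q Y) ((relations_iff Y _).2 (rels F Q Y))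
    rwa [value_wordOf] at this
  refine ⟨fun n hn => ⟨?_, ?_⟩, fun n hn => ⟨?_, ?_⟩⟩
  · refine undecidable_of fun Y hm N => ⟨fun h => ?_, fun h A _ _ _ _ _ => holds_of_halts hm h⟩
    exact hno Q3 Y N (h (Alg F Q3 Y) (inM F Y hn))
  · refine undecidable_of fun Y hm N => ⟨fun h => ?_, fun h A _ _ _ => holds_of_halts hm h⟩
    exact hno Q3 Y N (h (Alg F Q3 Y) (inM F Y hn))
  · refine undecidable_of fun Y hm N => ⟨fun h => ?_, fun h A _ _ _ _ _ => holds_of_halts hm h⟩
    exact hno Q4 Y N (h (Alg F Q4 Y) (inS F Y hn))
  · refine undecidable_of fun Y hm N => ⟨fun h => ?_, fun h A _ _ _ => holds_of_halts hm h⟩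
    exact hno Q4 Y N (h (Alg F Q4 Y) (inS F Y hn))

end Pool.Agent.Results.MP_79b5eb_lc.Undecidable
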